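import Mathlib
import Pool.Agent.SubRiem.Main

/-!
# The sub-Riemannian Eisenhart theorem (MP_134ef0_gt, Q1)

The question is local and coordinate invariant, so `M` is taken to be an open subset of a
finite-dimensional real vector space `E` (a coordinate neighbourhood).  All the notions (smooth
distribution, bracket generation, metric, normal and abnormal extremals, geodesics, affine
equivalence, direct products) are those of the problem; they are defined in
`Pool/Agent/SubRiem/Defs.lean`.
-/

set_option autoImplicit false

namespace Pool.Agent.Results.MP_134ef0_gt.SubRiemannianEisenhart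

open Pool.Agent.SubRiem

/-- Let `(M, D, g)` be a sub-Riemannian structure and `q₀ ∈ M`.  If on some connected open
neighbourhood `U ⊆ M` of `q₀` there is a metric `g'` on `(U, D)` such that every geodesic (normal
or abnormal) of `g` in `U` becomes a geodesic of `g'` after an affine change of parameter (in
particular, if `g` and `g'` are affinely equivalent), and `g'` is not a constant multiple of `g`
on `U`, then `(M, D, g)` is near `q₀` the direct product of two sub-Riemannian structures of
positive dimension and positive rank. -/
theorem result {E : Type*} [NormedAddCommGroup E] [NormedSpace ℝ E] [FiniteDimensional ℝ E]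
    {M : Set E} {D : E → Submodule ℝ E} {g : E → E → E → ℝ} (hg : IsSubRiemannian M D g)
    {q₀ : E}
    (h : ∃ (U : Set E) (g' : E → E → E → ℝ), IsOpen U ∧ IsConnected U ∧ q₀ ∈ U ∧ U ⊆ M ∧
      IsMetricOn U D g' ∧ GeodesicsAffineSubset D g g' U ∧ ¬ ConstantlyProportionalOn D g g' U) :
    IsProductNear M D g q₀ := by
  obtain ⟨U, g', hU, hconn, hq₀, hUM, hg', haff, hnp⟩ := h
  exact eisenhart hg hU hconn.isPreconnected hUM hg' haff hnp hq₀

end Pool.Agent.Results.MP_134ef0_gt.SubRiemannianEisenhart
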